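import Pool.Agent.W434.BW.StmB

set_option autoImplicit false

namespace Pool.Agent.W959.BW

open Pool.Agent.W434.BW

variable {Ω : Type} {ar : Ω → ℕ} {A : Type}

lemma rel3 {a : Alg ar A} {R : A → A → Prop} (h : Rel a a R) (t : Tm ar (Fin 3))
    {x1 x2 x3 y1 y2 y3 : A} (h1 : R x1 y1) (h2 : R x2 y2) (h3 : R x3 y3) :
    R (t.ev a ![x1, x2, x3]) (t.ev a ![y1, y2, y3]) := by
  refine ev_rel h t _ _ fun v => ?_
  fin_cases v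
  · exact h1
  · exact h2
  · exact h3

lemma mem3 {a : Alg ar A} {S : Set A} (h : Sub a S) (t : Tm ar (Fin 3))
    {x1 x2 x3 : A} (h1 : x1 ∈ S) (h2 : x2 ∈ S) (h3 : x3 ∈ S) :
    t.ev a ![x1, x2, x3] ∈ S := by
  refine ev_mem h t _ fun v => ?_
  fin_cases v
  · exact h1
  · exact h2
  · exact h3

lemma idem3 {a : Alg ar A} (h : Idem a) (t : Tm ar (Fin 3)) (x : A) : t.ev a ![x, x, x] = x := by
  have e : (![x, x, x] : Fin 3 → A) = fun _ => x := by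
    funext v
    fin_cases v <;> rfl
  rw [e]
  exact ev_idem h t x

lemma ev3 (a : Alg ar A) (I : Type) (t : Tm ar (Fin 3)) (r1 r2 r3 : I → A) (i : I) :
    t.ev (piA a I) ![r1, r2, r3] i = t.ev a ![r1 i, r2 i, r3 i] := by
  rw [ev_pi]
  congr 1
  exact vec3 (fun s : I → A => s i) r1 r2 r3

lemma img_abs {V St : Type} {a : Alg ar A} {t : Tm ar (Fin 3)} (S : Sys V St A) (hOk : S.Ok)
    (s : St) (hRel : Rel a a (S.E s)) (D : Set A) (h : RAbs a t D (S.P (S.src s))) :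
    RAbs a t (S.img s D) (S.P (S.tgt s)) := by
  rintro b1 ⟨c1, hc1, e1⟩ b2 ⟨c2, hc2, e2⟩ b3 hb3
  obtain ⟨c3, hc3⟩ := hOk.ext (S.rev s) b3 (by rw [hOk.src_rev]; exact hb3)
  have e3 : S.E s c3 b3 := (hOk.rev_E s c3 b3).1 hc3
  have hd := (hOk.dom s c3 b3 e3).1
  have h' := h c1 hc1 c2 hc2 c3 hd
  exact ⟨⟨_, h'.1, rel3 hRel t e1 e2 e3⟩, ⟨_, h'.2.1, rel3 hRel t e1 e3 e2⟩,
    ⟨_, h'.2.2, rel3 hRel t e3 e1 e2⟩⟩

lemma img_sub {V St : Type} {a : Alg ar A} (S : Sys V St A)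
    (s : St) (hRel : Rel a a (S.E s)) (D : Set A) (h : Sub a D) :
    Sub a (S.img s D) := by
  intro ω x hx
  choose c hc using hx
  exact ⟨a ω c, h ω c (fun i => (hc i).1), hRel ω c x (fun i => (hc i).2)⟩

lemma clos {a : Alg ar A} {t : Tm ar (Fin 3)} {I : Type} {R' R : Set (I → A)}
    (h : RAbs (piA a I) t R' R) (i j : I) {x1 y1 x2 y2 x3 y3 : A}
    (h1 : ∃ r ∈ R', r i = x1 ∧ r j = y1) (h2 : ∃ r ∈ R', r i = x2 ∧ r j = y2)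
    (h3 : ∃ r ∈ R, r i = x3 ∧ r j = y3) :
    (∃ r ∈ R', r i = t.ev a ![x1, x2, x3] ∧ r j = t.ev a ![y1, y2, y3]) ∧
    (∃ r ∈ R', r i = t.ev a ![x1, x3, x2] ∧ r j = t.ev a ![y1, y3, y2]) ∧
    (∃ r ∈ R', r i = t.ev a ![x3, x1, x2] ∧ r j = t.ev a ![y3, y1, y2]) := by
  obtain ⟨r1, hr1, rfl, rfl⟩ := h1
  obtain ⟨r2, hr2, rfl, rfl⟩ := h2
  obtain ⟨r3, hr3, rfl, rfl⟩ := h3
  have h' := h r1 hr1 r2 hr2 r3 hr3
  exact ⟨⟨_, h'.1, ev3 a I t _ _ _ _, ev3 a I t _ _ _ _⟩,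
    ⟨_, h'.2.1, ev3 a I t _ _ _ _, ev3 a I t _ _ _ _⟩,
    ⟨_, h'.2.2, ev3 a I t _ _ _ _, ev3 a I t _ _ _ _⟩⟩

lemma clos3 {a : Alg ar A} {t : Tm ar (Fin 3)} {R : A → A → Prop}
    (h : Rel a a R) {x1 y1 x2 y2 x3 y3 : A}
    (h1 : R x1 y1) (h2 : R x2 y2) (h3 : R x3 y3) :
    R (t.ev a ![x1, x2, x3]) (t.ev a ![y1, y2, y3]) ∧
    R (t.ev a ![x1, x3, x2]) (t.ev a ![y1, y3, y2]) ∧
    R (t.ev a ![x3, x1, x2]) (t.ev a ![y3, y1, y2]) :=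
  ⟨rel3 h t h1 h2 h3, rel3 h t h1 h3 h2, rel3 h t h3 h1 h2⟩

lemma pi_abs {I : Type} {a : Alg ar A} {t : Tm ar (Fin 3)} {R : Set (I → A)} {P P' : I → Set A}
    (hR : Sub (piA a I) R) (hRP : ∀ r ∈ R, ∀ i, r i ∈ P i) (h : ∀ i, RAbs a t (P' i) (P i)) :
    RAbs (piA a I) t {r | r ∈ R ∧ ∀ i, r i ∈ P' i} R := by
  rintro r1 ⟨hr1, h1⟩ r2 ⟨hr2, h2⟩ r3 hr3
  refine ⟨⟨mem3 hR t hr1 hr2 hr3, fun i => ?_⟩, ⟨mem3 hR t hr1 hr3 hr2, fun i => ?_⟩,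
    ⟨mem3 hR t hr3 hr1 hr2, fun i => ?_⟩⟩
  · rw [ev3]
    exact (h i (r1 i) (h1 i) (r2 i) (h2 i) (r3 i) (hRP r3 hr3 i)).1
  · rw [ev3]
    exact (h i (r1 i) (h1 i) (r2 i) (h2 i) (r3 i) (hRP r3 hr3 i)).2.1
  · rw [ev3]
    exact (h i (r1 i) (h1 i) (r2 i) (h2 i) (r3 i) (hRP r3 hr3 i)).2.2

theorem redV (hS : S_sysok) (hM : S_mproc) (hW : S_walk) : S_redV := by
  intro Ω1 Ω2 ar1 ar2 V K A _ _ _ ι _ M u1 u2 a1 a2 hT hOk hQc x0 C0 t1 t2 hC0 hC0P hC0ne hC0n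
    hab1 hab2
  obtain ⟨hSOk, hR1, hR2, hP2⟩ := hS Ω1 Ω2 ar1 ar2 V K A ι M u1 u2 a1 a2 hT hOk
  obtain ⟨W, Cx, hWne, hWg, hW3, hW4, hW5⟩ := hM V _ A M.sys
    (fun z D => D ⊆ M.P z ∧ D.Nonempty ∧ D ≠ M.P z ∧ Sub a1 D ∧ RAbs a1 t1 D (M.P z) ∧
      RAbs a2 t2 D (M.P z)) hSOk hQc (fun x C h => ⟨h.1, h.2.1, h.2.2.1⟩)
    (by
      intro s C h
      by_cases he : M.sys.img s C = M.sys.P (M.sys.tgt s)
      · exact Or.inl he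
      · right
        refine ⟨?_, ?_, he, img_sub M.sys s (hR1 s) C h.2.2.2.1,
          img_abs M.sys hSOk s (hR1 s) C h.2.2.2.2.1, img_abs M.sys hSOk s (hR2 s) C h.2.2.2.2.2⟩
        · rintro b ⟨c, -, hcb⟩
          exact (hSOk.dom s c b hcb).2
        · obtain ⟨c, hc⟩ := h.2.1
          obtain ⟨b, hb⟩ := hSOk.ext s c (h.1 hc)
          exact ⟨b, c, hc, hb⟩)
    ⟨x0, C0, hC0P, hC0ne, hC0n, hC0, hab1, hab2⟩
  have hSub2 : ∀ D : Set A, Sub a1 D → Sub a2 D := by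
    intro D hD
    have h1 : Rel a1 a1 (fun a b => a = b ∧ a ∈ D) := by
      intro ω x y h
      have e : x = y := funext fun i => (h i).1
      subst e
      exact ⟨rfl, hD ω x fun i => (h i).2⟩
    have h2 := (hT.inv _).1 h1
    intro ω x hx
    exact (h2 ω x x (fun i => ⟨rfl, hx i⟩)).2
  set P' : V → Set A := fun z => {a | a ∈ M.P z ∧ (z ∈ W → a ∈ Cx z)} with hP'
  have hP'sub : ∀ z, P' z ⊆ M.P z := fun z a ha => ha.1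
  have hP'1 : ∀ z, Sub a1 (P' z) := by
    intro z ω x hx
    exact ⟨hOk.subP z ω x fun i => (hx i).1, fun hz => (hWg z hz).2.2.2.1 ω x fun i => (hx i).2 hz⟩
  have hP'2 : ∀ z, Sub a2 (P' z) := fun z => hSub2 _ (hP'1 z)
  have hA1 : ∀ z, RAbs a1 t1 (P' z) (M.P z) := by
    intro z c hc d hd x hx
    refine ⟨⟨mem3 (hOk.subP z) t1 hc.1 hd.1 hx, fun hz => ?_⟩,
      ⟨mem3 (hOk.subP z) t1 hc.1 hx hd.1, fun hz => ?_⟩,
      ⟨mem3 (hOk.subP z) t1 hx hc.1 hd.1, fun hz => ?_⟩⟩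
    · exact ((hWg z hz).2.2.2.2.1 c (hc.2 hz) d (hd.2 hz) x hx).1
    · exact ((hWg z hz).2.2.2.2.1 c (hc.2 hz) d (hd.2 hz) x hx).2.1
    · exact ((hWg z hz).2.2.2.2.1 c (hc.2 hz) d (hd.2 hz) x hx).2.2
  have hA2 : ∀ z, RAbs a2 t2 (P' z) (M.P z) := by
    intro z c hc d hd x hx
    refine ⟨⟨mem3 (hP2 z) t2 hc.1 hd.1 hx, fun hz => ?_⟩,
      ⟨mem3 (hP2 z) t2 hc.1 hx hd.1, fun hz => ?_⟩,
      ⟨mem3 (hP2 z) t2 hx hc.1 hd.1, fun hz => ?_⟩⟩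
    · exact ((hWg z hz).2.2.2.2.2 c (hc.2 hz) d (hd.2 hz) x hx).1
    · exact ((hWg z hz).2.2.2.2.2 c (hc.2 hz) d (hd.2 hz) x hx).2.1
    · exact ((hWg z hz).2.2.2.2.2 c (hc.2 hz) d (hd.2 hz) x hx).2.2
  have hP'ne : ∀ z, (P' z).Nonempty := by
    intro z
    by_cases hz : z ∈ W
    · obtain ⟨c, hc⟩ := (hWg z hz).2.1
      exact ⟨c, (hWg z hz).1 hc, fun _ => hc⟩
    · obtain ⟨c, hc⟩ := hOk.ne z
      exact ⟨c, hc, fun h => absurd h hz⟩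
  set R' : ∀ k, Set (ι k → A) := fun k => {r | r ∈ M.R k ∧ ∀ i, r i ∈ P' (M.σ k i)} with hR'
  have hext : ∀ k i, ∀ c ∈ P' (M.σ k i), ∃ r ∈ R' k, r i = c := by
    intro k i c hc
    by_cases hw : ∃ i0, M.σ k i0 ∈ W
    · obtain ⟨i0, hi0⟩ := hw
      have hex : ∃ r ∈ M.R k, r i0 ∈ Cx (M.σ k i0) ∧ r i = c := by
        have him : c ∈ M.sys.img (.inl ⟨k, i0, i⟩) (Cx (M.σ k i0)) := by
          by_cases hi : M.σ k i ∈ W
          · rcases hW3 (.inl ⟨k, i0, i⟩) hi0 hi with h | h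
            · have h' : M.sys.img (.inl ⟨k, i0, i⟩) (Cx (M.σ k i0)) = Cx (M.σ k i) := h
              rw [h']
              exact hc.2 hi
            · have h' : M.sys.img (.inl ⟨k, i0, i⟩) (Cx (M.σ k i0)) = M.P (M.σ k i) := h
              rw [h']
              exact hc.1
          · have h' : M.sys.img (.inl ⟨k, i0, i⟩) (Cx (M.σ k i0)) = M.P (M.σ k i) :=
              hW4 (.inl ⟨k, i0, i⟩) hi0 hi
            rw [h']
            exact hc.1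
        obtain ⟨b, hb, r, hr, h1, h2⟩ := him
        have h1' : r i0 = b := h1
        have h2' : r i = c := h2
        exact ⟨r, hr, by rw [h1']; exact hb, h2'⟩
      obtain ⟨r, hr, h1, h2⟩ := hex
      refine ⟨r, ⟨hr, fun l => ⟨hOk.dom k r hr l, fun hl => ?_⟩⟩, h2⟩
      exact (hW5 (.inl ⟨k, i0, l⟩) hi0 hl (r i0) (r l) ⟨r, hr, rfl, rfl⟩).1 h1
    · obtain ⟨r, hr, h1⟩ := hOk.ext k i c hc.1
      exact ⟨r, ⟨hr, fun l => ⟨hOk.dom k r hr l, fun hl => absurd ⟨l, hl⟩ hw⟩⟩, h1⟩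
  have hB1 : ∀ k, M.fl k → RAbs (piA a1 (ι k)) t1 (R' k) (M.R k) := fun k hk =>
    pi_abs (hOk.sub1 k hk) (hOk.dom k) (fun i => hA1 (M.σ k i))
  have hB2 : ∀ k, ¬ M.fl k → RAbs (piA a2 (ι k)) t2 (R' k) (M.R k) := fun k hk =>
    pi_abs (hOk.sub2 k hk) (hOk.dom k) (fun i => hA2 (M.σ k i))
  have hsub1 : ∀ k, M.fl k → Sub (piA a1 (ι k)) (R' k) := fun k hk ω x hx =>
    ⟨hOk.sub1 k hk ω x fun i => (hx i).1, fun l => hP'1 _ ω _ fun i => (hx i).2 l⟩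
  have hsub2 : ∀ k, ¬ M.fl k → Sub (piA a2 (ι k)) (R' k) := fun k hk ω x hx =>
    ⟨hOk.sub2 k hk ω x fun i => (hx i).1, fun l => hP'2 _ ω _ fun i => (hx i).2 l⟩
  have hOk' : ({ M with R := R', P := P' } : MI V K A ι).Ok a1 a2 := by
    refine ⟨hP'ne, ?_, hP'1, hsub1, hsub2, fun k r hr i => hr.2 i, hext⟩
    intro k
    by_cases hw : Nonempty (ι k)
    · obtain ⟨i⟩ := hw
      obtain ⟨c, hc⟩ := hP'ne (M.σ k i)
      obtain ⟨r, hr, -⟩ := hext k i c hc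
      exact ⟨r, hr⟩
    · obtain ⟨r, hr⟩ := hOk.neR k
      exact ⟨r, hr, fun i => absurd ⟨i⟩ hw⟩
  set E1 : ((Σ k, ι k × ι k) ⊕ V) → A → A → Prop := fun s a b => match s with
    | .inl p => (M.fl p.1 → ∃ r ∈ R' p.1, r p.2.1 = a ∧ r p.2.2 = b) ∧
        ((∃ r ∈ M.R p.1, r p.2.1 = a ∧ r p.2.2 = b) ∧ a ∈ P' (M.σ p.1 p.2.1) ∧
          b ∈ P' (M.σ p.1 p.2.2))
    | .inr x => a = b ∧ a ∈ P' x with hE1
  have hMid : ({ M.sys with E := E1, P := P' } : Sys V ((Σ k, ι k × ι k) ⊕ V) A).Ok := by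
    refine ⟨hP'ne, ?_, ?_, ?_, ?_, ?_, ?_, ?_, ?_⟩
    · rintro (⟨k, i, j⟩ | x) a b h
      · exact h.2.2
      · obtain ⟨rfl, h⟩ := h
        exact ⟨h, h⟩
    · rintro (⟨k, i, j⟩ | x) a ha
      · obtain ⟨r, hr, h1⟩ := hext k i a ha
        exact ⟨r j, fun _ => ⟨r, hr, h1, rfl⟩, ⟨r, hr.1, h1, rfl⟩, ha, hr.2 j⟩
      · exact ⟨a, rfl, ha⟩
    · rintro (⟨k, i, j⟩ | x) <;> rfl
    · rintro (⟨k, i, j⟩ | x) <;> rfl
    · rintro (⟨k, i, j⟩ | x) a b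
      · constructor
        · rintro ⟨h1, ⟨r, hr, h2, h3⟩, h4, h5⟩
          refine ⟨fun hk => ?_, ⟨r, hr, h3, h2⟩, h5, h4⟩
          obtain ⟨r, hr, h2, h3⟩ := h1 hk
          exact ⟨r, hr, h3, h2⟩
        · rintro ⟨h1, ⟨r, hr, h2, h3⟩, h4, h5⟩
          refine ⟨fun hk => ?_, ⟨r, hr, h3, h2⟩, h5, h4⟩
          obtain ⟨r, hr, h2, h3⟩ := h1 hk
          exact ⟨r, hr, h3, h2⟩
      · constructor
        · rintro ⟨rfl, h⟩
          exact ⟨rfl, h⟩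
        · rintro ⟨rfl, h⟩
          exact ⟨rfl, h⟩
    · intro x; rfl
    · intro x; rfl
    · intro x a b; exact Iff.rfl
  have hQ1 := hW V _ A M.sys E1 P' (fun x y z => t1.ev a1 ![x, y, z]) hSOk hQc hMid
    (idem3 hT.n1.1 t1)
    (by
      rintro (⟨k, i, j⟩ | x) a b h
      · exact h.2.1
      · exact ⟨h.1, h.2.1⟩)
    (by
      rintro (⟨k, i, j⟩ | x) x1 y1 x2 y2 x3 y3 h1 h2 h3
      · have hd1 := hA1 (M.σ k i) x1 h1.2.2.1 x2 h2.2.2.1 x3 (hSOk.dom (.inl ⟨k, i, j⟩) _ _ h3).1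
        have hd2 := hA1 (M.σ k j) y1 h1.2.2.2 y2 h2.2.2.2 y3 (hSOk.dom (.inl ⟨k, i, j⟩) _ _ h3).2
        have hr := clos3 (t := t1) (hR1 (.inl ⟨k, i, j⟩)) h1.2.1 h2.2.1 h3
        refine ⟨⟨fun hk => ?_, hr.1, hd1.1, hd2.1⟩, ⟨fun hk => ?_, hr.2.1, hd1.2.1, hd2.2.1⟩,
          ⟨fun hk => ?_, hr.2.2, hd1.2.2, hd2.2.2⟩⟩
        · exact (clos (hB1 k hk) i j (h1.1 hk) (h2.1 hk) h3).1
        · exact (clos (hB1 k hk) i j (h1.1 hk) (h2.1 hk) h3).2.1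
        · exact (clos (hB1 k hk) i j (h1.1 hk) (h2.1 hk) h3).2.2
      · obtain ⟨rfl, h1⟩ := h1
        obtain ⟨rfl, h2⟩ := h2
        obtain ⟨rfl, h3⟩ := h3
        have hd1 := hA1 x x1 h1 x2 h2 x3 h3
        exact ⟨⟨rfl, hd1.1⟩, ⟨rfl, hd1.2.1⟩, ⟨rfl, hd1.2.2⟩⟩)
  have hNew : ({ M with R := R', P := P' } : MI V K A ι).sys.Ok :=
    (hS Ω1 Ω2 ar1 ar2 V K A ι _ u1 u2 a1 a2 hT hOk').1
  have hQ2 := hW V _ A ({ M.sys with E := E1, P := P' } : Sys V ((Σ k, ι k × ι k) ⊕ V) A)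
    ({ M with R := R', P := P' } : MI V K A ι).sys.E P' (fun x y z => t2.ev a2 ![x, y, z])
    hMid hQ1 hNew (idem3 hT.n2.1 t2)
    (by
      rintro (⟨k, i, j⟩ | x) a b h
      · obtain ⟨r, hr, h1, h2⟩ := h
        have h1' : r i = a := h1
        have h2' : r j = b := h2
        refine ⟨fun _ => ⟨r, hr, h1, h2⟩, ⟨r, hr.1, h1, h2⟩, ?_, ?_⟩
        · rw [← h1']; exact hr.2 i
        · rw [← h2']; exact hr.2 j
      · exact h)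
    (by
      rintro (⟨k, i, j⟩ | x) x1 y1 x2 y2 x3 y3 h1 h2 h3
      · by_cases hk : M.fl k
        · have hrel : Rel a1 a1 (fun x y => ∃ r ∈ R' k, r i = x ∧ r j = y) := by
            intro ω x y hxy
            choose r hr h1 h2 using hxy
            refine ⟨piA a1 (ι k) ω r, hsub1 k hk ω r hr, ?_, ?_⟩
            · show a1 ω (fun l => r l i) = a1 ω x
              congr 1
              exact funext h1
            · show a1 ω (fun l => r l j) = a1 ω y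
              congr 1
              exact funext h2
          exact clos3 (t := t2) ((hT.inv _).1 hrel) h1 h2 (h3.1 hk)
        · exact clos (hB2 k hk) i j h1 h2 h3.2.1
      · obtain ⟨rfl, h1⟩ := h1
        obtain ⟨rfl, h2⟩ := h2
        obtain ⟨rfl, h3⟩ := h3
        have hd1 := hA2 x x1 h1 x2 h2 x3 (hP'sub x h3)
        exact ⟨⟨rfl, hd1.1⟩, ⟨rfl, hd1.2.1⟩, ⟨rfl, hd1.2.2⟩⟩)
  refine ⟨R', P', hOk', hQ2, fun k r hr => hr.1, hP'sub, Or.inl ?_⟩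
  obtain ⟨w, hw⟩ := hWne
  refine ⟨w, fun h => (hWg w hw).2.2.1 ?_⟩
  apply Set.Subset.antisymm (hWg w hw).1
  intro a ha
  rw [← h] at ha
  exact ha.2 hw

end Pool.Agent.W959.BW
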